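import Pool.Agent.H49.SW.Stm

set_option autoImplicit false

/-!
# Codes with short words, R1: the mirror image
-/

namespace Pool.Agent.H75.SW

open Finset MvPolynomial
open Pool.Agent.H35.FC (gf)
open Pool.Agent.H72.OF (os)
open Pool.Agent.H49.SW

private lemma gf_rev {α : Type} [DecidableEq α] (L : Finset (List α)) :
    gf (L.image List.reverse) = gf L := by
  unfold Pool.Agent.H35.FC.gf
  rw [Finset.sum_image (fun x _ y _ h => List.reverse_injective h)]
  refine Finset.sum_congr rfl fun w _ => ?_
  exact ((List.reverse_perm w).map X).prod_eq

/-- R1 -/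
theorem sRev : SRev := by
  intro α _ _ F G a b e e' M h
  have hrev : ∀ w : List α, w.reverse.reverse = w := List.reverse_reverse
  refine
    { two := h.two
      e01 := fun g => h.e01' _
      e01' := fun f => h.e01 _
      recA := fun g => ?_
      recB := fun f => ?_
      nn := fun g f => ?_
      ne := fun g f => (h.ne _ _).image _
      cutR := fun g f w hw he => ?_
      cutL := fun g f w hw he => ?_
      F0 := h.G0
      G0 := h.F0
      posF := h.posG
      posG := h.posF
      posA := fun t ht g => h.posB t ht _
      posB := fun t ht f => h.posA t ht _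
      finA := h.finB.subset ?_
      finB := h.finA.subset ?_
      gA := fun g m => h.gB _ m
      gB := fun f m => h.gA _ m }
  · have h1 := h.recB g.reverse
    simp only [List.reverse_append, List.reverse_cons, List.reverse_nil, List.nil_append,
      List.singleton_append]
    exact h1
  · have h1 := h.recA f.reverse
    simp only [List.reverse_cons]
    exact h1
  · rw [gf_rev, h.nn]
    ring
  · obtain ⟨w', hw', rfl⟩ := Finset.mem_image.1 hw
    have h1 := h.cutL _ _ _ hw' he
    simpa [List.reverse_append] using h1
  · obtain ⟨w', hw', rfl⟩ := Finset.mem_image.1 hw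
    have h1 := h.cutR _ _ _ hw' he
    simpa [List.reverse_append] using h1
  · rintro _ ⟨g, rfl⟩
    exact ⟨_, rfl⟩
  · rintro _ ⟨g, rfl⟩
    exact ⟨_, rfl⟩

end Pool.Agent.H75.SW
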